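import Pool.Agent.H36.Ord

open Pool.Agent.H38.NP Pool.Agent.H36.Ord

theorem Pool.Agent.Results.MP_c8d28d_lc.SearchA.result :
    (∃ F, PolyTime F ∧ ∀ p : ℕ × List (ℕ × ℕ), (∃ l, IsA (graphOf p.1 p.2) l) →
      ∃ l : List ℕ, F (enc p) = enc l ∧ IsA (graphOf p.1 p.2) l) ↔
    ∀ A, InNP A → InP A :=
  search_iff false verA hardA
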